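import Pool.Agent.MWLQ.StmtsA

/-! # Row CPY of squad MWLQ (helper86), period `n`; adapted from the row CPY of MWLE (helper39) -/

set_option autoImplicit false

namespace Pool.Agent.MWLQ.H86

open Pool.Agent.Helper14_MV
open Pool.Agent.Helper2_MV (RR)
open Pool.Agent.MWK (pre)
open Pool.Agent.MWGN (nn Tau gh)
open Pool.Agent.MWGQ (pw Z Gn E0 A0 P0)
open Pool.Agent.MWLE (pin sep con tl tll Sg t1 Fc Fb Fy Fx Fu Fz rz sf k0)

/-- images of powers -/
theorem rep_flat (g : ℕ → List ℕ) (c b : ℕ) (h : g c = List.replicate b c) :
    ∀ a : ℕ, (List.replicate a c).flatMap g = List.replicate (a * b) c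
  | 0 => by simp
  | a + 1 => by
    rw [List.replicate_succ, List.flatMap_cons, rep_flat g c b h a, h,
      ← List.replicate_add, Nat.add_comm b, Nat.succ_mul]

theorem rep_nil (g : ℕ → List ℕ) (c : ℕ) (h : g c = []) (a : ℕ) :
    (List.replicate a c).flatMap g = [] := by
  rw [List.flatMap_eq_nil_iff]
  intro x hx
  rw [List.eq_of_mem_replicate hx, h]

/-- regrouping of the contents and the lights -/
theorem regroup (n : ℕ) : ∀ m : ℕ, List.replicate ((n + 1) * (n + 1)) (con 0) ++
    (List.range m).flatMap (fun i => pin (1 + i) ::
      List.replicate ((n + 1) * (n + 1)) (con (1 + i))) =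
    lw4 n (fun i => pin (i + 1)) con m ++ List.replicate ((n + 1) * (n + 1)) (con m)
  | 0 => by
    unfold lw4
    simp only [List.range_zero, List.flatMap_nil, List.append_nil, List.nil_append]
  | m + 1 => by
    have ih := regroup n m
    unfold lw4 at ih ⊢
    rw [List.range_succ, List.flatMap_append, List.flatMap_append, ← List.append_assoc, ih]
    simp only [List.flatMap_cons, List.flatMap_nil, List.append_nil, List.append_assoc,
      List.cons_append, List.nil_append, Nat.add_comm 1 m]

/-- `psi n 0` and a filter -/
def ha (n m c : ℕ) : List ℕ := (psi n 0 c).filter (Fu m)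
/-- `psi n 0`, a filter and the renaming -/
def hb (n m c : ℕ) : List ℕ := ((psi n 0 c).filter (Fz m)).map (rz m)

theorem ha_eq (n m : ℕ) (L : List ℕ) :
    (L.flatMap (psi n 0)).filter (Fu m) = L.flatMap (ha n m) := by
  rw [List.filter_flatMap]
  rfl

theorem hb_eq (n m : ℕ) (L : List ℕ) :
    ((L.flatMap (psi n 0)).filter (Fz m)).map (rz m) = L.flatMap (hb n m) := by
  rw [List.filter_flatMap, List.map_flatMap]
  rfl

theorem ha0 (n m : ℕ) : ha n m 0 = [] := rfl

theorem ha1 (n m : ℕ) : ha n m 1 = [1] := by
  unfold ha psi Fu
  simp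

theorem ha_con (n m k : ℕ) :
    ha n m (con k) = if k ≤ m then List.replicate (n + 1) (con k) else [] := by
  unfold ha psi
  rw [if_neg (by unfold con; omega), if_pos (by unfold con; omega)]
  have h : Fu m (con k) = decide (k ≤ m) := by
    unfold Fu con pin sep
    rw [decide_eq_decide]
    omega
  by_cases hk : k ≤ m
  · rw [if_pos hk, List.filter_replicate_of_pos (by rw [h]; exact decide_eq_true hk)]
  · rw [if_neg hk, List.filter_replicate_of_neg (by rw [h, decide_eq_false hk]; simp)]

theorem ha_pin (n m k : ℕ) : ha n m (pin k) = if 1 ≤ k ∧ k ≤ m + 1 then [pin k] else [] := by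
  unfold ha psi
  rw [if_neg (by unfold pin; omega), if_neg (by unfold pin; omega)]
  have h : Fu m (pin k) = decide (1 ≤ k ∧ k ≤ m + 1) := by
    unfold Fu con pin sep
    rw [decide_eq_decide]
    omega
  by_cases hk : 1 ≤ k ∧ k ≤ m + 1
  · rw [if_pos hk, List.filter_cons_of_pos (by rw [h]; exact decide_eq_true hk), List.filter_nil]
  · rw [if_neg hk, List.filter_cons_of_neg (by rw [h, decide_eq_false hk]; simp), List.filter_nil]

theorem ha_sep (n m k : ℕ) : ha n m (sep k) = if 1 ≤ k ∧ k ≤ m + 1 then [sep k] else [] := by
  unfold ha psi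
  rw [if_neg (by unfold sep; omega), if_neg (by unfold sep; omega)]
  have h : Fu m (sep k) = decide (1 ≤ k ∧ k ≤ m + 1) := by
    unfold Fu con pin sep
    rw [decide_eq_decide]
    omega
  by_cases hk : 1 ≤ k ∧ k ≤ m + 1
  · rw [if_pos hk, List.filter_cons_of_pos (by rw [h]; exact decide_eq_true hk), List.filter_nil]
  · rw [if_neg hk, List.filter_cons_of_neg (by rw [h, decide_eq_false hk]; simp), List.filter_nil]

theorem hb0 (n m : ℕ) : hb n m 0 = [] := rfl

theorem hb1 (n m : ℕ) : hb n m 1 = [1] := by
  unfold hb psi Fz
  have h : rz m 1 = 1 := by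
    unfold rz pin sep
    rw [if_neg (by omega), if_neg (by omega)]
  simp [h]

theorem hb_con (n m k : ℕ) :
    hb n m (con k) = if k ≤ m then List.replicate (n + 1) (con k) else [] := by
  unfold hb psi
  rw [if_neg (by unfold con; omega), if_pos (by unfold con; omega)]
  have h : Fz m (con k) = decide (k ≤ m) := by
    unfold Fz con pin sep
    rw [decide_eq_decide]
    omega
  have hr : rz m (con k) = con k := by
    unfold rz
    rw [if_neg (by unfold con pin; omega), if_neg (by unfold con sep; omega)]
  by_cases hk : k ≤ m
  · rw [if_pos hk, List.filter_replicate_of_pos (by rw [h]; exact decide_eq_true hk),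
      List.map_replicate, hr]
  · rw [if_neg hk, List.filter_replicate_of_neg (by rw [h, decide_eq_false hk]; simp),
      List.map_nil]

theorem hb_pin (n m k : ℕ) : hb n m (pin k) = if 1 ≤ k ∧ k ≤ m then [pin k] else
    if k = m + 2 then [pin (m + 1)] else [] := by
  unfold hb psi
  rw [if_neg (by unfold pin; omega), if_neg (by unfold pin; omega)]
  have h : Fz m (pin k) = decide ((1 ≤ k ∧ k ≤ m) ∨ k = m + 2) := by
    unfold Fz con pin sep
    rw [decide_eq_decide]
    omega
  by_cases hk : 1 ≤ k ∧ k ≤ m
  · have hr : rz m (pin k) = pin k := by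
      unfold rz
      rw [if_neg (by unfold pin; omega), if_neg (by unfold pin sep; omega)]
    rw [if_pos hk, List.filter_cons_of_pos (by rw [h]; exact decide_eq_true (Or.inl hk)),
      List.filter_nil, List.map_cons, List.map_nil, hr]
  · rw [if_neg hk]
    by_cases hk2 : k = m + 2
    · have hr : rz m (pin k) = pin (m + 1) := by
        unfold rz
        rw [hk2, if_pos rfl]
      rw [if_pos hk2, List.filter_cons_of_pos (by rw [h]; exact decide_eq_true (Or.inr hk2)),
        List.filter_nil, List.map_cons, List.map_nil, hr]
    · rw [if_neg hk2, List.filter_cons_of_neg (by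
        rw [h, decide_eq_false (by rintro (h1 | h1); exacts [hk h1, hk2 h1])]; simp),
        List.filter_nil, List.map_nil]

theorem hb_sep (n m k : ℕ) : hb n m (sep k) = if 1 ≤ k ∧ k ≤ m then [sep k] else
    if k = m + 2 then [sep (m + 1)] else [] := by
  unfold hb psi
  rw [if_neg (by unfold sep; omega), if_neg (by unfold sep; omega)]
  have h : Fz m (sep k) = decide ((1 ≤ k ∧ k ≤ m) ∨ k = m + 2) := by
    unfold Fz con pin sep
    rw [decide_eq_decide]
    omega
  by_cases hk : 1 ≤ k ∧ k ≤ m
  · have hr : rz m (sep k) = sep k := by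
      unfold rz
      rw [if_neg (by unfold pin sep; omega), if_neg (by unfold sep; omega)]
    rw [if_pos hk, List.filter_cons_of_pos (by rw [h]; exact decide_eq_true (Or.inl hk)),
      List.filter_nil, List.map_cons, List.map_nil, hr]
  · rw [if_neg hk]
    by_cases hk2 : k = m + 2
    · have hr : rz m (sep k) = sep (m + 1) := by
        unfold rz
        rw [hk2, if_neg (by unfold pin sep; omega), if_pos rfl]
      rw [if_pos hk2, List.filter_cons_of_pos (by rw [h]; exact decide_eq_true (Or.inr hk2)),
        List.filter_nil, List.map_cons, List.map_nil, hr]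
    · rw [if_neg hk2, List.filter_cons_of_neg (by
        rw [h, decide_eq_false (by rintro (h1 | h1); exacts [hk h1, hk2 h1])]; simp),
        List.filter_nil, List.map_nil]

theorem flatMap_nil_of {g : ℕ → List ℕ} {l : List ℕ} (h : ∀ a ∈ l, g a = []) :
    l.flatMap g = [] := by
  rw [List.flatMap_eq_nil_iff]
  exact h

theorem flatMap_filter_of {g g' : ℕ → List ℕ} {p : ℕ → Bool} : ∀ {l : List ℕ},
    (∀ a ∈ l, p a = true → g a = g' a) → (∀ a ∈ l, p a = false → g a = []) →
      l.flatMap g = (l.filter p).flatMap g'
  | [], _, _ => rfl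
  | a :: l, h1, h2 => by
    have ih := flatMap_filter_of (l := l) (fun b hb => h1 b (List.mem_cons_of_mem _ hb))
      (fun b hb => h2 b (List.mem_cons_of_mem _ hb))
    by_cases hp : p a = true
    · rw [List.filter_cons_of_pos hp, List.flatMap_cons, List.flatMap_cons, ih,
        h1 a List.mem_cons_self hp]
    · rw [List.filter_cons_of_neg hp, List.flatMap_cons, ih,
        h2 a List.mem_cons_self (by simpa using hp), List.nil_append]

/-- the first block -/
theorem wb_eq (n m : ℕ) : wb n m false false =
    1 :: (List.replicate (n + 1) (con 0) ++ pin 0 :: (cp n 1 m ++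
    (0 :: (List.replicate (n + 1) (con (m + 1)) ++ pin (m + 1) :: 1 :: (cp n (m + 2) m ++
      [pin (2 * m + 2), 0]))))) := by
  unfold wb N0 Nx
  simp only [Bool.false_eq_true, if_false, List.nil_append, List.cons_append, List.append_assoc]

/-- contents and lights `1, …, m` are kept -/
theorem cp_keep (n : ℕ) (g : ℕ → List ℕ) (m : ℕ) (h1 : ∀ k, 1 ≤ k → k ≤ m → g (pin k) = [pin k])
    (h2 : ∀ k, k ≤ m → g (con k) = List.replicate (n + 1) (con k)) :
    (cp n 1 m).flatMap g = (List.range m).flatMap (fun i => pin (1 + i) ::
      List.replicate ((n + 1) * (n + 1)) (con (1 + i))) := by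
  unfold cp
  rw [List.flatMap_assoc]
  apply List.flatMap_congr
  intro i hi
  have hi' := List.mem_range.1 hi
  rw [List.flatMap_cons, h1 (1 + i) (by omega) (by omega),
    rep_flat g (con (1 + i)) (n + 1) (h2 (1 + i) (by omega)) (n + 1)]
  rfl

/-- no letter of `cp` is kept -/
theorem cp_nil (n s : ℕ) (g : ℕ → List ℕ) (l : List ℕ) (h1 : ∀ i ∈ l, g (pin (s + i)) = [])
    (h2 : ∀ i ∈ l, g (con (s + i)) = []) :
    (l.flatMap (fun i => pin (s + i) :: List.replicate (n + 1) (con (s + i)))).flatMap g = [] := by
  apply flatMap_nil_of
  intro a haa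
  obtain ⟨i, hi0, hi⟩ := List.mem_flatMap.1 haa
  rcases List.mem_cons.1 hi with rfl | hi
  · exact h1 i hi0
  · rw [List.eq_of_mem_replicate hi]
    exact h2 i hi0

theorem cpy : CpyStmt := by
  intro n σ τ m hS hτ
  constructor
  · rw [ha_eq]
    unfold wd
    rw [List.flatMap_append, wb_eq]
    have e1 : (cp n 1 m).flatMap (ha n m) = (List.range m).flatMap (fun i => pin (1 + i) ::
        List.replicate ((n + 1) * (n + 1)) (con (1 + i))) :=
      cp_keep n _ m (fun k hk1 hk2 => by rw [ha_pin, if_pos ⟨hk1, by omega⟩])
        (fun k hk => by rw [ha_con, if_pos hk])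
    have e2 : (cp n (m + 2) m).flatMap (ha n m) = [] := by
      unfold cp
      apply cp_nil
      · intro i _
        rw [ha_pin, if_neg (by omega)]
      · intro i _
        rw [ha_con, if_neg (by omega)]
    have e3 : (tl σ).flatMap (ha n m) = tll (fun i => sep (i + 1)) (fun i => pin (i + 1)) τ := by
      unfold tl tll
      rw [List.flatMap_assoc]
      have h3 : σ.flatMap (fun x => [sep x, pin x].flatMap (ha n m)) =
          (σ.filter (fun k => decide (1 ≤ k ∧ k ≤ m + 1))).flatMap (fun k => [sep k, pin k]) := by
        apply flatMap_filter_of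
        · intro a _ hp
          have hp' := of_decide_eq_true hp
          simp only [List.flatMap_cons, List.flatMap_nil, List.append_nil]
          rw [ha_sep, ha_pin, if_pos hp', if_pos hp']
          rfl
        · intro a _ hp
          have hp' := of_decide_eq_false hp
          simp only [List.flatMap_cons, List.flatMap_nil, List.append_nil]
          rw [ha_sep, ha_pin, if_neg hp', if_neg hp']
          rfl
      rw [h3, hS.f1, List.flatMap_map]
    have e4 := regroup n m
    have e5 : lw4 n (fun i => pin (i + 1)) con (m + 1) = lw4 n (fun i => pin (i + 1)) con m ++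
        List.replicate ((n + 1) * (n + 1)) (con m) ++ [pin (m + 1)] := by
      unfold lw4
      rw [List.range_succ, List.flatMap_append]
      simp only [List.flatMap_cons, List.flatMap_nil, List.append_nil, List.append_assoc,
        List.cons_append, List.nil_append]
    have e7 : (List.replicate (n + 1) (con 0)).flatMap (ha n m) =
        List.replicate ((n + 1) * (n + 1)) (con 0) :=
      rep_flat _ _ _ (by rw [ha_con, if_pos (by omega)]) _
    have e8 : (List.replicate (n + 1) (con (m + 1))).flatMap (ha n m) = [] :=
      rep_nil _ _ (by rw [ha_con, if_neg (by omega)]) _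
    simp only [List.flatMap_cons, List.flatMap_append, List.flatMap_nil, e1, e2, e3, e7, e8,
      ha0, ha1]
    rw [ha_pin, ha_pin, ha_pin, if_neg (by omega), if_pos (by omega), if_neg (by omega), e5, ← e4]
    simp only [List.append_assoc, List.cons_append, List.nil_append, List.append_nil]
  · rw [hb_eq]
    unfold wd
    rw [List.flatMap_append, wb_eq]
    have e1 : (cp n 1 m).flatMap (hb n m) = (List.range m).flatMap (fun i => pin (1 + i) ::
        List.replicate ((n + 1) * (n + 1)) (con (1 + i))) :=
      cp_keep n _ m (fun k hk1 hk2 => by rw [hb_pin, if_pos ⟨hk1, hk2⟩])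
        (fun k hk => by rw [hb_con, if_pos hk])
    have e2 : (cp n (m + 2) m).flatMap (hb n m) ++ hb n m (pin (2 * m + 2)) = [pin (m + 1)] := by
      cases m with
      | zero =>
        rw [hb_pin, if_neg (by omega), if_pos (by omega)]
        rfl
      | succ m =>
        rw [hb_pin n (m + 1) (2 * (m + 1) + 2), if_neg (by omega), if_neg (by omega),
          List.append_nil]
        unfold cp
        rw [List.range_succ_eq_map, List.flatMap_cons, List.flatMap_append]
        have h4 : ((List.map Nat.succ (List.range m)).flatMap
            (fun i => pin (m + 1 + 2 + i) ::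
              List.replicate (n + 1) (con (m + 1 + 2 + i)))).flatMap (hb n (m + 1)) = [] := by
          apply cp_nil
          · intro i hi
            obtain ⟨j, -, rfl⟩ := List.mem_map.1 hi
            rw [hb_pin, if_neg (by omega), if_neg (by omega)]
          · intro i hi
            obtain ⟨j, -, rfl⟩ := List.mem_map.1 hi
            rw [hb_con, if_neg (by omega)]
        rw [h4, List.append_nil, List.flatMap_cons,
          rep_nil (hb n (m + 1)) (con (m + 1 + 2 + 0)) (by rw [hb_con, if_neg (by omega)]) (n + 1),
          hb_pin, if_neg (by omega), if_pos (by omega)]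
        rfl
    have e3 : (tl σ).flatMap (hb n m) = tll (fun i => sep (i + 1)) (fun i => pin (i + 1)) τ := by
      unfold tl tll
      rw [List.flatMap_assoc]
      have h3 : σ.flatMap (fun x => [sep x, pin x].flatMap (hb n m)) =
          (σ.filter (fun k => decide ((1 ≤ k ∧ k ≤ m) ∨ k = m + 2))).flatMap
            (fun k => if k = m + 2 then [sep (m + 1), pin (m + 1)] else [sep k, pin k]) := by
        apply flatMap_filter_of
        · intro a _ hp
          have hp' := of_decide_eq_true hp
          simp only [List.flatMap_cons, List.flatMap_nil, List.append_nil]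
          rw [hb_sep, hb_pin]
          by_cases hk : 1 ≤ a ∧ a ≤ m
          · rw [if_pos hk, if_pos hk, if_neg (by omega)]
            rfl
          · have hk2 : a = m + 2 := hp'.resolve_left hk
            rw [if_neg hk, if_neg hk, if_pos hk2, if_pos hk2, if_pos hk2]
            rfl
        · intro a _ hp
          have hp' := of_decide_eq_false hp
          simp only [List.flatMap_cons, List.flatMap_nil, List.append_nil]
          rw [hb_sep, hb_pin, if_neg (fun h => hp' (Or.inl h)), if_neg (fun h => hp' (Or.inl h)),
            if_neg (fun h => hp' (Or.inr h)), if_neg (fun h => hp' (Or.inr h))]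
          rfl
      rw [h3, hS.f2, List.flatMap_map]
      apply List.flatMap_congr
      intro i hi
      have hi' := hτ i hi
      by_cases him : i = m
      · subst him
        simp
      · simp only [if_neg him]
        rw [if_neg (by omega)]
    have e4 := regroup n m
    have e7 : (List.replicate (n + 1) (con 0)).flatMap (hb n m) =
        List.replicate ((n + 1) * (n + 1)) (con 0) :=
      rep_flat _ _ _ (by rw [hb_con, if_pos (by omega)]) _
    have e8 : (List.replicate (n + 1) (con (m + 1))).flatMap (hb n m) = [] :=
      rep_nil _ _ (by rw [hb_con, if_neg (by omega)]) _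
    simp only [List.flatMap_cons, List.flatMap_append, List.flatMap_nil, e1, e3, e7, e8, hb0, hb1]
    rw [hb_pin n m 0, hb_pin n m (m + 1), if_neg (by omega),
      if_neg (by omega), if_neg (by omega), if_neg (by omega)]
    have e6 : lw4 n (fun i => pin (i + 1)) con m ++
        (List.replicate ((n + 1) * (n + 1)) (con m) ++
        (1 :: pin (m + 1) :: tll (fun i => sep (i + 1)) (fun i => pin (i + 1)) τ)) =
        (List.replicate ((n + 1) * (n + 1)) (con 0) ++ (List.range m).flatMap (fun i =>
          pin (1 + i) :: List.replicate ((n + 1) * (n + 1)) (con (1 + i)))) ++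
          (1 :: (((cp n (m + 2) m).flatMap (hb n m) ++ hb n m (pin (2 * m + 2))) ++
            tll (fun i => sep (i + 1)) (fun i => pin (i + 1)) τ)) := by
      rw [e2, e4]
      simp only [List.append_assoc, List.cons_append, List.nil_append]
    rw [e6]
    simp only [List.append_assoc, List.cons_append, List.nil_append, List.append_nil]

end Pool.Agent.MWLQ.H86
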